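import Mathlib

namespace Pool.Agent.EFD

/-- the dual vectors -/
def wv {ι : Type} (u : Fin 3 → ι → ℝ) (l : Fin 3 → Fin 3 → ℝ) (k : Fin 3) (g : ι) : ℝ :=
  (∑ j, l k j) * u k g - ∑ i, l i k * u i g

theorem mb_sum3 (f : Fin 3 → ℝ) (i j k : Fin 3) (hij : i ≠ j) (hjk : j ≠ k) (hik : i ≠ k) :
    ∑ x, f x = f i + f j + f k := by
  rw [Fin.sum_univ_three]
  fin_cases i <;> fin_cases j <;> fin_cases k <;> simp_all <;> ring

theorem mb_comb {ι : Type} [Fintype ι] (x y : ℝ) (f g h : ι → ℝ)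
    (hh : ∀ t, h t = x * f t + y * g t) :
    ∑ t, |h t| ≤ |x| * ∑ t, |f t| + |y| * ∑ t, |g t| := by
  rw [Finset.mul_sum, Finset.mul_sum, ← Finset.sum_add_distrib]
  refine Finset.sum_le_sum fun t _ => ?_
  rw [hh t]
  calc |x * f t + y * g t| ≤ |x * f t| + |y * g t| := abs_add_le _ _
    _ = _ := by rw [abs_mul, abs_mul]

theorem mb_wv {ι : Type} (u : Fin 3 → ι → ℝ) (l : Fin 3 → Fin 3 → ℝ) (hl0 : ∀ i, l i i = 0)
    (i j k : Fin 3) (hij : i ≠ j) (hjk : j ≠ k) (hik : i ≠ k) (g : ι) :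
    wv u l i g = (l i j + l i k) * u i g - l j i * u j g - l k i * u k g := by
  unfold wv
  rw [mb_sum3 _ i j k hij hjk hik, mb_sum3 _ i j k hij hjk hik, hl0 i]
  ring

theorem mb_E {ι : Type} [Fintype ι] (u : Fin 3 → ι → ℝ) (h1 : ∀ i, ∑ g, u i g = 1)
    (l : Fin 3 → Fin 3 → ℝ) (hl0 : ∀ i, l i i = 0)
    (i j k : Fin 3) (hij : i ≠ j) (hjk : j ≠ k) (hik : i ≠ k) :
    ∑ g, wv u l i g = (l i j + l i k) - (l j i + l k i) := by
  have : ∀ g, wv u l i g = (l i j + l i k) * u i g - l j i * u j g - l k i * u k g :=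
    mb_wv u l hl0 i j k hij hjk hik
  simp only [this]
  rw [Finset.sum_sub_distrib, Finset.sum_sub_distrib, ← Finset.mul_sum, ← Finset.mul_sum,
    ← Finset.mul_sum, h1, h1, h1]
  ring

/-- identity (1) of the paper, with the bound of the norm -/
theorem mb_w {ι : Type} [Fintype ι] (u : Fin 3 → ι → ℝ) (h0 : ∀ i g, 0 ≤ u i g)
    (h1 : ∀ i, ∑ g, u i g = 1) (l : Fin 3 → Fin 3 → ℝ) (hl0 : ∀ i, l i i = 0)
    (i j k : Fin 3) (hij : i ≠ j) (hjk : j ≠ k) (hik : i ≠ k) (η : ℝ)
    (hη : ∑ g, |wv u l i g| ≤ η) :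
    |(l i j + l i k) - (l j i + l k i)| ≤ η ∧
    ∑ g, |l j i * (u i g - u j g) - l k i * (u k g - u i g)| ≤ 2 * η := by
  have hE := mb_E u h1 l hl0 i j k hij hjk hik
  have e1 : |(l i j + l i k) - (l j i + l k i)| ≤ η := by
    rw [← hE]
    exact (Finset.abs_sum_le_sum_abs _ _).trans hη
  refine ⟨e1, ?_⟩
  have e2 := mb_comb 1 (-((l i j + l i k) - (l j i + l k i))) (fun g => wv u l i g) (u i)
    (fun g => l j i * (u i g - u j g) - l k i * (u k g - u i g)) (by
      intro g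
      rw [mb_wv u l hl0 i j k hij hjk hik]
      ring)
  have e3 : ∑ t, |u i t| = 1 := by
    rw [← h1 i]
    exact Finset.sum_congr rfl fun t _ => abs_of_nonneg (h0 i t)
  rw [e3, abs_one, abs_neg] at e2
  linarith

/-- paper (LB), with the large multiplier named: `a = u i - u j`, `b = u j - u k`, `c = u k - u i` -/
theorem lb_core_pr {ι : Type} [Fintype ι] (u : Fin 3 → ι → ℝ) (h0 : ∀ i g, 0 ≤ u i g)
    (h1 : ∀ i, ∑ g, u i g = 1) (d : ℝ) (hd0 : 0 < d)
    (hd : ∀ i j, i ≠ j → d ≤ ∑ g, |u i g - u j g|) (l : Fin 3 → Fin 3 → ℝ)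
    (hl : ∀ i j, 0 ≤ l i j) (hl0 : ∀ i, l i i = 0) (hl1 : ∑ i, ∑ j, l i j = 1)
    (i j k : Fin 3) (hij : i ≠ j) (hjk : j ≠ k) (hik : i ≠ k) (h6 : 1 / 6 ≤ l j i) :
    ∃ p, d / 48 ≤ ∑ g, |wv u l p g| := by
  by_contra hcon
  push Not at hcon
  have hs : (l i j + l i k) + (l j i + l j k) + (l k i + l k j) = 1 := by
    rw [← hl1, mb_sum3 _ i j k hij hjk hik, mb_sum3 _ i j k hij hjk hik,
      mb_sum3 _ i j k hij hjk hik, mb_sum3 _ i j k hij hjk hik, hl0, hl0, hl0]
    ring
  obtain ⟨a1, a2⟩ := mb_w u h0 h1 l hl0 i j k hij hjk hik _ (hcon i).le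
  obtain ⟨b1, b2⟩ := mb_w u h0 h1 l hl0 j k i hjk hik.symm hij.symm _ (hcon j).le
  obtain ⟨c1, c2⟩ := mb_w u h0 h1 l hl0 k i j hik.symm hij hjk.symm _ (hcon k).le
  set w1 : ι → ℝ := fun g => l j i * (u i g - u j g) - l k i * (u k g - u i g) with hw1
  set w2 : ι → ℝ := fun g => l k j * (u j g - u k g) - l i j * (u i g - u j g) with hw2
  set w3 : ι → ℝ := fun g => l i k * (u k g - u i g) - l j k * (u j g - u k g) with hw3
  have a2' : ∑ g, |w1 g| ≤ 2 * (d / 48) := a2
  have b2' : ∑ g, |w2 g| ≤ 2 * (d / 48) := b2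
  have c2' : ∑ g, |w3 g| ≤ 2 * (d / 48) := c2
  have p0 : 0 < l j i := by linarith
  have q0 := hl k i
  set C := ∑ g, |u k g - u i g| with hC
  have hdC : d ≤ C := hd k i hik.symm
  -- p a = q c + w1
  have n1 := mb_comb (l k i / l j i) (1 / l j i) (fun g => u k g - u i g) w1
    (fun g => u i g - u j g) (by
      intro g
      simp only [hw1]
      field_simp
      ring)
  -- p b = -(p+q) c - w1
  have n2 := mb_comb (-((l j i + l k i) / l j i)) (-(1 / l j i)) (fun g => u k g - u i g) w1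
    (fun g => u j g - u k g) (by
      intro g
      simp only [hw1]
      field_simp
      ring)
  have dij := hd i j hij
  have djk := hd j k hjk
  rw [abs_of_nonneg (div_nonneg q0 p0.le), abs_of_nonneg (div_nonneg zero_le_one p0.le)] at n1
  rw [abs_neg, abs_neg, abs_of_nonneg (div_nonneg (by linarith) p0.le),
    abs_of_nonneg (div_nonneg zero_le_one p0.le)] at n2
  have m1 : l j i * d ≤ l k i * C + 2 * (d / 48) := by
    have h := dij.trans n1
    have e : l k i / l j i * ∑ t, |u k t - u i t| + 1 / l j i * ∑ t, |w1 t| =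
        (l k i * C + ∑ t, |w1 t|) / l j i := by
      rw [hC]
      field_simp
    rw [e, le_div_iff₀ p0] at h
    linarith
  have m2 : l j i * d ≤ (l j i + l k i) * C + 2 * (d / 48) := by
    have h := djk.trans n2
    have e : (l j i + l k i) / l j i * ∑ t, |u k t - u i t| + 1 / l j i * ∑ t, |w1 t| =
        ((l j i + l k i) * C + ∑ t, |w1 t|) / l j i := by
      rw [hC]
      field_simp
    rw [e, le_div_iff₀ p0] at h
    linarith
  -- (2)
  have n3 := mb_comb (-(l j i)) (-(l k j + l i j)) w2 w1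
    (fun g => (l k j * (l j i + l k i) + l i j * l k i) * (u k g - u i g)) (by
      intro g
      simp only [hw1, hw2]
      ring)
  have n4 := mb_comb (l j i) (-(l j k)) w3 w1
    (fun g => (l i k * l j i + l j k * (l j i + l k i)) * (u k g - u i g)) (by
      intro g
      simp only [hw1, hw3]
      ring)
  have k1 : ∀ x : ℝ, 0 ≤ x → ∑ t, |x * (u k t - u i t)| = x * C := by
    intro x hx
    rw [hC, Finset.mul_sum]
    refine Finset.sum_congr rfl fun t _ => ?_
    rw [abs_mul, abs_of_nonneg hx]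
  have z1 := hl k j
  have z2 := hl i j
  have z3 := hl i k
  have z4 := hl j k
  rw [k1 _ (by positivity), abs_neg, abs_neg, abs_of_nonneg p0.le,
    abs_of_nonneg (by linarith)] at n3
  rw [k1 _ (by positivity), abs_neg, abs_of_nonneg p0.le, abs_of_nonneg z4] at n4
  have hC0 : 0 < C := by linarith
  have f1 : l k j + l i j ≤ 1 / 12 := by
    have g1 : (l k j + l i j) * (l j i * d - 2 * (d / 48)) ≤
        (l k j * (l j i + l k i) + l i j * l k i) * C := by
      have t1 := mul_le_mul_of_nonneg_left m2 z1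
      have t2 := mul_le_mul_of_nonneg_left m1 z2
      nlinarith
    have g2 : l j i * ∑ t, |w2 t| + (l k j + l i j) * ∑ t, |w1 t| ≤
        l j i * (2 * (d / 48)) + (l k j + l i j) * (2 * (d / 48)) :=
      add_le_add (mul_le_mul_of_nonneg_left b2' p0.le)
        (mul_le_mul_of_nonneg_left a2' (by linarith))
    have g3 : (l k j + l i j) * (l j i * d - 4 * (d / 48)) ≤ l j i * (2 * (d / 48)) := by
      linarith
    have g4 : l j i * d / 2 ≤ l j i * d - 4 * (d / 48) := by nlinarith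
    have g5 := mul_le_mul_of_nonneg_left g4 (add_nonneg z1 z2)
    have g6 : (l k j + l i j) * (l j i * d) ≤ 1 / 12 * (l j i * d) := by linarith
    exact le_of_mul_le_mul_right g6 (mul_pos p0 hd0)
  have f2 : l i k + l j k ≤ 1 / 12 := by
    have g1 : (l i k + l j k) * (l j i * d) ≤
        (l i k * l j i + l j k * (l j i + l k i)) * C := by
      have t1 : (l i k + l j k) * l j i ≤ l i k * l j i + l j k * (l j i + l k i) := by
        have := mul_nonneg z4 q0
        nlinarith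
      calc (l i k + l j k) * (l j i * d) = ((l i k + l j k) * l j i) * d := by ring
        _ ≤ (l i k * l j i + l j k * (l j i + l k i)) * C :=
          mul_le_mul t1 hdC hd0.le (by positivity)
    have g2 : l j i * ∑ t, |w3 t| + l j k * ∑ t, |w1 t| ≤
        l j i * (2 * (d / 48)) + l j k * (2 * (d / 48)) :=
      add_le_add (mul_le_mul_of_nonneg_left c2' p0.le)
        (mul_le_mul_of_nonneg_left a2' z4)
    have g3 : (l i k + l j k) * (l j i * d - 2 * (d / 48)) ≤ l j i * (2 * (d / 48)) := by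
      have := mul_nonneg z3 hd0.le
      linarith
    have g4 : l j i * d / 2 ≤ l j i * d - 2 * (d / 48) := by nlinarith
    have g5 := mul_le_mul_of_nonneg_left g4 (add_nonneg z3 z4)
    have g6 : (l i k + l j k) * (l j i * d) ≤ 1 / 12 * (l j i * d) := by linarith
    exact le_of_mul_le_mul_right g6 (mul_pos p0 hd0)
  have d2 : d ≤ 2 := by
    have h := mb_comb 1 (-1) (u i) (u j) (fun g => u i g - u j g) (by intro g; ring)
    have e3 : ∀ i, ∑ t, |u i t| = 1 := by
      intro i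
      rw [← h1 i]
      exact Finset.sum_congr rfl fun t _ => abs_of_nonneg (h0 i t)
    rw [e3, e3, abs_one, abs_neg, abs_one] at h
    linarith
  have a3 := neg_abs_le ((l i j + l i k) - (l j i + l k i))
  linarith

theorem lb_pr {ι : Type} [Fintype ι] (u : Fin 3 → ι → ℝ) (h0 : ∀ i g, 0 ≤ u i g)
    (h1 : ∀ i, ∑ g, u i g = 1) (d : ℝ) (hd0 : 0 < d)
    (hd : ∀ i j, i ≠ j → d ≤ ∑ g, |u i g - u j g|) (l : Fin 3 → Fin 3 → ℝ)
    (hl : ∀ i j, 0 ≤ l i j) (hl0 : ∀ i, l i i = 0) (hl1 : ∑ i, ∑ j, l i j = 1) :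
    ∃ σ : ι → Fin 3, d / 96 ≤ ∑ g, wv u l (σ g) g := by
  have h6 : ∃ j i, j ≠ i ∧ 1 / 6 ≤ l j i := by
    by_contra hc
    push Not at hc
    have t01 := hc 0 1 (by decide)
    have t02 := hc 0 2 (by decide)
    have t10 := hc 1 0 (by decide)
    have t12 := hc 1 2 (by decide)
    have t20 := hc 2 0 (by decide)
    have t21 := hc 2 1 (by decide)
    simp only [Fin.sum_univ_three, hl0] at hl1
    linarith
  obtain ⟨j, i, hji, h6⟩ := h6
  obtain ⟨k, hjk, hik⟩ : ∃ k : Fin 3, j ≠ k ∧ i ≠ k := by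
    revert hji
    clear h6
    revert i j
    decide
  obtain ⟨p, hp⟩ := lb_core_pr u h0 h1 d hd0 hd l hl hl0 hl1 i j k hji.symm hjk hik h6
  have hex : ∀ g, ∃ s : Fin 3, ∀ q, wv u l q g ≤ wv u l s g := fun g =>
    Finite.exists_max fun q => wv u l q g
  choose σ hσ using hex
  refine ⟨σ, ?_⟩
  have key : ∀ g, |wv u l p g| / 2 ≤ wv u l (σ g) g := by
    intro g
    have hz : wv u l 0 g + wv u l 1 g + wv u l 2 g = 0 := by
      simp only [wv, Fin.sum_univ_three]
      ring
    have s0 := hσ g 0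
    have s1 := hσ g 1
    have s2 := hσ g 2
    have sp := hσ g p
    have hpz : -wv u l p g ≤ 2 * wv u l (σ g) g := by
      fin_cases p
      · simp only [Fin.zero_eta, Fin.isValue] at *
        linarith
      · simp only [Fin.mk_one, Fin.isValue] at *
        linarith
      · simp only [Fin.reduceFinMk, Fin.isValue] at *
        linarith
    have hpos : 0 ≤ wv u l (σ g) g := by linarith
    rcases abs_cases (wv u l p g) with ⟨h, _⟩ | ⟨h, _⟩
    · rw [h]; linarith
    · rw [h]; linarith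
  calc d / 96 = d / 48 / 2 := by ring
    _ ≤ (∑ g, |wv u l p g|) / 2 := by linarith
    _ = ∑ g, |wv u l p g| / 2 := by rw [Finset.sum_div]
    _ ≤ _ := Finset.sum_le_sum fun g _ => key g

end Pool.Agent.EFD
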